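import Pool.Agent.Helper77.SPV.Z1F

/-! # Module A4F: the derivation `d/dU` at the finite places -/

set_option autoImplicit false

namespace Pool.Agent.Helper8.SPV

open IntermediateField (adjoin)
open Polynomial (aeval)

/-- the value of `U` in `k0` gives a unit `g` -/
theorem A4F_unitg (hG1 : ST_G1)
    (k0 k K : Type) [Field k0] [IsAlgClosed k0] [Field k] [CharZero k] [Field K]
    [Algebra k0 k] [Algebra k K] [Algebra k0 K] [IsScalarTower k0 k K] (b : Fin 10 → k)
    (T W : K) (hBD : BD k0 k b) (hW : W ^ 2 = T ^ 3 + 1)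
    (p : Pl k K) (h : p.Laws) (hTp : T ∈ p.O) (c : k0)
    (hc : p.M (Qf b T - algebraMap k0 K c)) :
    gg b T W ≠ 0 ∧ (gg b T W)⁻¹ ∈ p.O := by
  have hWp := Z1F_W h hW hTp
  obtain ⟨t1, ht1⟩ := h.res_ge T ((h.mem_iff_ge T).mp hTp)
  obtain ⟨w1, hw1⟩ := h.res_ge W ((h.mem_iff_ge W).mp hWp)
  have hw : w1 ^ 2 = t1 ^ 3 + 1 := by
    have h1 := Z1F_pow h hw1 2
    have h2 := Z1F_add h (Z1F_pow h ht1 3) (Z1F_const h (1 : k))
    rw [map_one (algebraMap k K), ← hW] at h2
    exact Z1F_uniq h h1 h2
  have hQ : Qf b t1 = algebraMap k0 k c := by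
    have h1 := Z1F_qf h b ht1
    have h2 := (h.M_iff_ge _).mp hc
    rw [IsScalarTower.algebraMap_apply k0 k K] at h2
    exact Z1F_uniq h h1 h2
  have hne := hG1 k0 k b hBD t1 w1 _ hw hQ
  apply Z1F_unit h hne
  unfold gg
  apply Z1F_mul h (Z1F_mul h _ hw1) (Z1F_qd h b ht1)
  have := Z1F_const h (2 : k)
  rwa [map_ofNat] at this ⊢

theorem A4F_U {k K : Type} [Field k] [Field K] [Algebra k K] (p : Pl k K) (f g : K)
    (hf : p.U f) (hg : p.U g) : p.U (f * g) := by
  refine ⟨mul_ne_zero hf.1 hg.1, p.O.mul_mem _ _ hf.2.1 hg.2.1, ?_⟩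
  rw [mul_inv]
  exact p.O.mul_mem _ _ hf.2.2 hg.2.2

/-- nonzero polynomials in `U` are units -/
theorem A4F_units (k0 k K : Type) [Field k0] [IsAlgClosed k0] [Field k] [Field K]
    [Algebra k0 k] [Algebra k K] [Algebra k0 K] [IsScalarTower k0 k K] (p : Pl k K) (u : K)
    (hu : u ∈ p.O) (hc : ¬ ∃ c : k0, p.M (u - algebraMap k0 K c)) (n : ℕ) :
    ∀ s : Polynomial k0, s.natDegree = n → s ≠ 0 → p.U (aeval u s) := by
  have hk : ∀ c : k0, algebraMap k0 K c ∈ p.O := by
    intro c
    rw [IsScalarTower.algebraMap_apply k0 k K]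
    exact p.mem _
  induction n with
  | zero =>
    intro s hs hs0
    rw [Polynomial.eq_C_of_natDegree_eq_zero hs, Polynomial.aeval_C]
    have h1 : s.coeff 0 ≠ 0 := by
      intro h
      apply hs0
      rw [Polynomial.eq_C_of_natDegree_eq_zero hs, h, Polynomial.C_0]
    refine ⟨(map_ne_zero _).mpr h1, hk _, ?_⟩
    rw [← map_inv₀]
    exact hk _
  | succ n ih =>
    intro s hs hs0
    have h1 : s.degree ≠ 0 := by
      intro h
      have := Polynomial.natDegree_eq_zero_iff_degree_le_zero.mpr h.le
      omega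
    obtain ⟨r, hr⟩ := IsAlgClosed.exists_root s h1
    obtain ⟨t, ht⟩ := Polynomial.dvd_iff_isRoot.mpr hr
    have ht0 : t ≠ 0 := by
      rintro rfl
      exact hs0 (by rw [ht, mul_zero])
    have hdeg : t.natDegree = n := by
      have h2 := Polynomial.natDegree_mul (Polynomial.X_sub_C_ne_zero r) ht0
      rw [← ht, hs, Polynomial.natDegree_X_sub_C] at h2
      omega
    rw [ht, map_mul, map_sub, Polynomial.aeval_X, Polynomial.aeval_C]
    apply A4F_U p _ _ _ (ih t hdeg ht0)
    have h3 : u - algebraMap k0 K r ∈ p.O := sub_mem hu (hk r)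
    have h4 : ¬ p.M (u - algebraMap k0 K r) := fun h => hc ⟨r, h⟩
    unfold Pl.M at h4
    push Not at h4
    obtain ⟨h5, h6⟩ := h4 h3
    exact ⟨h5, h3, h6⟩

theorem st_A4F (hPL1 : ST_PL1) (hG1 : ST_G1) (hCORR : ST_CORR) (hDERALG : ST_DERALG)
    (hID : ST_ID) (hTR : ST_TR) : ST_A4F := by
  intro k0 k K _ _ _ _ _ _ _ _ _ _ b T W X Y d hBD hFF hpt hT hXa hYa p hTp
  have h := hPL1 k K hFF p
  obtain ⟨hz1, hz2, -, hz4, -⟩ := hCORR k0 k K b T W d hFF hpt.e1 hT p
  obtain ⟨-, -, hδU, -, -, -, -⟩ := hID k0 k K b T W X Y d hpt hT (hTR k0 k K b hBD T hT)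
  have hQ : Qf b T ∈ p.O := by
    unfold Qf
    exact sum_mem fun i _ => p.O.mul_mem _ _ (p.mem _) (p.O.pow_mem hTp _)
  constructor
  · rintro ⟨c, hc⟩ f hf
    obtain ⟨hg0, hgi⟩ := A4F_unitg hG1 k0 k K b T W hBD hpt.e1 p h hTp c hc
    have h1 : (gg b T W)⁻¹ * d.δ f = (gg b T W)⁻¹ * ((d.δ p.z)⁻¹ * d.δ f) * d.δ p.z := by
      field_simp
    rw [h1]
    have h2 : p.Ge 0 ((gg b T W)⁻¹ * ((d.δ p.z)⁻¹ * d.δ f)) :=
      (h.mem_iff_ge _).mp (p.O.mul_mem _ _ hgi (hz4 f hf))
    have h3 : p.Ge (-p.rr d.δ) (d.δ p.z) := by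
      refine (h.ge_iff _ _ hz1).mpr ?_
      unfold Pl.rr
      omega
    have h4 := h.ge_mul h2 h3
    rwa [zero_add] at h4
  · intro hc y hy P n
    have hCK : CharZero K := charZero_of_injective_algebraMap (algebraMap k K).injective
    have hk : ∀ c : k0, algebraMap k0 K c ∈ p.O := by
      intro c
      rw [IsScalarTower.algebraMap_apply k0 k K]
      exact p.mem _
    set u := Qf b T with hu
    have hgg0 : gg b T W ≠ 0 := by
      -- otherwise δ u = 0; all nonzero polynomials in u ... use transcendence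
      intro h0
      rw [h0] at hδU
      have hW : W ≠ 0 := by
        intro hW0
        have h1 : T ^ 3 + 1 = 0 := by rw [← hpt.e1, hW0]; ring
        apply hT
        refine ⟨Polynomial.X ^ 3 + 1, ?_, ?_⟩
        · exact (Polynomial.monic_X_pow_add_C (1 : k) (n := 3) (by norm_num)).ne_zero
        · rw [map_add, map_pow, Polynomial.aeval_X, map_one]
          exact h1
      unfold gg at h0
      have h1 : Qd b T = 0 := by
        rcases mul_eq_zero.mp h0 with h2 | h2
        · exact absurd h2 (mul_ne_zero two_ne_zero hW)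
        · exact h2
      -- Qd is a nonconstant polynomial in T
      apply hT
      refine ⟨∑ j : Fin 10, Polynomial.C (((j : ℕ) : k) * b j) * Polynomial.X ^ ((j : ℕ) - 1),
        ?_, ?_⟩
      · intro h2
        have h3 := congrArg (fun q => Polynomial.coeff q 8) h2
        simp only [Polynomial.finsetSum_coeff, Polynomial.coeff_C_mul, Polynomial.coeff_X_pow,
          Polynomial.coeff_zero] at h3
        rw [Finset.sum_eq_single (9 : Fin 10)] at h3
        · have h4 : b 9 ≠ 0 := hBD.indep.ne_zero 9
          norm_num at h3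
          exact h4 h3
        · intro j _ hj
          have h5 : ¬ (8 = (j : ℕ) - 1) := by
            intro h6
            apply hj
            have : (j : ℕ) = 9 := by omega
            exact Fin.ext this
          rw [if_neg h5, mul_zero]
        · intro h6
          exact absurd (Finset.mem_univ _) h6
      · rw [← h1]
        unfold Qd
        rw [map_sum]
        refine Finset.sum_congr rfl fun j _ => ?_
        rw [map_mul, map_pow, Polynomial.aeval_X, Polynomial.aeval_C, map_mul, map_natCast]
    let D : Derivation k K K := (gg b T W)⁻¹ • d.δ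
    have hD : ∀ f, D f = (gg b T W)⁻¹ * d.δ f := fun f => rfl
    have hDu : D u = 1 := by
      rw [hD, hδU, inv_mul_cancel₀ hgg0]
    have hDk : ∀ c : k0, D (algebraMap k0 K c) = 0 := by
      intro c
      rw [IsScalarTower.algebraMap_apply k0 k K]
      exact D.map_algebraMap _
    let D' : Derivation ℤ K K := D.restrictScalars ℤ
    have hD' : ∀ f, D' f = D f := fun f => rfl
    -- the field k0(u)
    let S : Subfield K := (adjoin k0 {u}).toSubfield
    have hSmem : ∀ x, x ∈ S ↔ x ∈ adjoin k0 {u} := fun x => Iff.rfl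
    have hSD : ∀ c ∈ S, D' c ∈ S := by
      intro c hc'
      rw [hSmem] at hc'
      induction hc' using IntermediateField.adjoin_induction with
      | mem x hx =>
        rw [Set.mem_singleton_iff.mp hx, hD', hDu]
        exact S.one_mem
      | algebraMap c =>
        rw [hD', hDk]
        exact S.zero_mem
      | add x z _ _ hx hz =>
        rw [map_add]
        exact S.add_mem hx hz
      | inv x hx' hx =>
        have h2 : D' x⁻¹ = -(x⁻¹ * x⁻¹) * D' x := by
          by_cases hx0 : x = 0
          · rw [hx0, inv_zero, map_zero, mul_zero]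
          · have h3 : D' (x * x⁻¹) = 0 := by
              rw [mul_inv_cancel₀ hx0]
              exact D'.map_one_eq_zero
            rw [Derivation.leibniz, smul_eq_mul, smul_eq_mul] at h3
            have h4 : D' x⁻¹ = x⁻¹ * (x * D' x⁻¹) := by
              rw [← mul_assoc, inv_mul_cancel₀ hx0, one_mul]
            rw [h4, eq_neg_of_add_eq_zero_left h3]
            ring
        rw [h2]
        exact S.mul_mem (S.neg_mem (S.mul_mem (S.inv_mem hx') (S.inv_mem hx'))) hx
      | mul x z hx' hz' hx hz =>
        rw [Derivation.leibniz, smul_eq_mul, smul_eq_mul]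
        exact S.add_mem (S.mul_mem hx' hz) (S.mul_mem hz' hx)
    have hSO : ∀ c ∈ S, c ∈ p.O := by
      intro c hc'
      rw [hSmem, IntermediateField.mem_adjoin_simple_iff] at hc'
      obtain ⟨r, s, rfl⟩ := hc'
      have hr : aeval u r ∈ p.O := by
        rw [Polynomial.aeval_eq_sum_range]
        exact sum_mem fun i _ => by
          rw [Algebra.smul_def]
          exact p.O.mul_mem _ _ (hk _) (p.O.pow_mem hQ _)
      by_cases hs : s = 0
      · rw [hs, map_zero, div_zero]
        exact p.O.zero_mem
      · rw [div_eq_mul_inv]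
        exact p.O.mul_mem _ _ hr (A4F_units k0 k K p u hQ hc _ s rfl hs).2.2
    -- the field k0(u, X, Y)
    have hA : ∀ a ∈ ({X, Y} : Set K), IsAlgebraic S a := by
      rintro a (rfl | rfl)
      · exact hXa
      · exact hYa
    let S' : Subfield K := Subfield.closure ((S : Set K) ∪ {X, Y})
    have hS'D : ∀ c ∈ S', D' c ∈ S' := (hDERALG.2 K D' S hSD {X, Y} hA)
    have hSS' : S ≤ S' := fun x hx => Subfield.subset_closure (Or.inl hx)
    have hyS' : y ∈ S' := by
      have h2 : adjoin k0 {u, X, Y} ≤ Subfield.toIntermediateField S' (fun c => hSS'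
          ((hSmem _).mpr ((adjoin k0 {u}).algebraMap_mem c))) := by
        rw [IntermediateField.adjoin_le_iff]
        rintro x (rfl | hx)
        · exact hSS' ((hSmem _).mpr (IntermediateField.mem_adjoin_simple_self k0 u))
        · exact Subfield.subset_closure (Or.inr hx)
      exact h2 hy
    have hS'O : ∀ c ∈ S', c ∈ p.O := by
      intro c hc'
      have halg : IsAlgebraic S c := by
        have h2 : S' ≤ (IntermediateField.adjoin S ({X, Y} : Set K)).toSubfield := by
          refine Subfield.closure_le.mpr ?_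
          rintro x (hx | hx)
          · exact (IntermediateField.adjoin S ({X, Y} : Set K)).algebraMap_mem ⟨x, hx⟩
          · exact IntermediateField.subset_adjoin S _ hx
        have h3 : c ∈ IntermediateField.adjoin S ({X, Y} : Set K) := h2 hc'
        have h4 : Algebra.IsAlgebraic S (IntermediateField.adjoin S ({X, Y} : Set K)) :=
          IntermediateField.isAlgebraic_adjoin fun x hx => (hA x hx).isIntegral
        have h5 := h4.isAlgebraic ⟨c, h3⟩
        exact h5.algebraMap
      obtain ⟨q, hq, hqc⟩ := halg.isIntegral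
      have hint : IsIntegral p.O c := by
        let ι : S →+* p.O := (Subring.inclusion (show S.toSubring ≤ p.O.toSubring from hSO))
        refine ⟨q.map ι, hq.map ι, ?_⟩
        rw [Polynomial.eval₂_map]
        exact hqc
      obtain ⟨z, hz⟩ := (IsIntegrallyClosed.isIntegral_iff (R := p.O) (K := K)).mp hint
      rw [← hz]
      exact z.2
    -- the module
    let V : AddSubgroup K := AddSubgroup.closure
      {z | ∃ (P : Polynomial k) (y : K), y ∈ S' ∧ z = aeval u P * y}
    have hVO : ∀ z ∈ V, z ∈ p.O := by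
      intro z hz
      induction hz using AddSubgroup.closure_induction with
      | mem x hx =>
        obtain ⟨P, y, hy, rfl⟩ := hx
        refine p.O.mul_mem _ _ ?_ (hS'O y hy)
        rw [Polynomial.aeval_eq_sum_range]
        exact sum_mem fun i _ => by
          rw [Algebra.smul_def]
          exact p.O.mul_mem _ _ (p.mem _) (p.O.pow_mem hQ _)
      | zero => exact p.O.zero_mem
      | add x z _ _ hx hz => exact p.O.add_mem _ _ hx hz
      | neg x _ hx => exact p.O.neg_mem _ hx
    have hVD : ∀ z ∈ V, D z ∈ V := by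
      intro z hz
      induction hz using AddSubgroup.closure_induction with
      | mem x hx =>
        obtain ⟨P, y, hy, rfl⟩ := hx
        rw [Derivation.leibniz, smul_eq_mul, smul_eq_mul, Derivation.map_aeval, hDu]
        refine V.add_mem (AddSubgroup.subset_closure ⟨P, D y, hS'D y hy, rfl⟩)
          (AddSubgroup.subset_closure ⟨P.derivative, y, hy, ?_⟩)
        rw [smul_eq_mul, mul_one, mul_comm]
      | zero => rw [map_zero]; exact V.zero_mem
      | add x z _ _ hx hz => rw [map_add]; exact V.add_mem hx hz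
      | neg x _ hx => rw [map_neg]; exact V.neg_mem hx
    have hVn : ∀ (n : ℕ) (z : K), z ∈ V →
        ((fun f => (gg b T W)⁻¹ * d.δ f)^[n]) z ∈ V := by
      intro n
      induction n with
      | zero => intro z hz; exact hz
      | succ n ih =>
        intro z hz
        rw [Function.iterate_succ_apply]
        exact ih _ (hVD z hz)
    exact hVO _ (hVn n _ (AddSubgroup.subset_closure ⟨P, y, hyS', rfl⟩))

end Pool.Agent.Helper8.SPV
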