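import Pool.Agent.Helper8.SPV.Stmts
import Pool.Agent.Helper8.SPV.PLib

/-! # Modules Z1F and Z2F: the local bounds at the finite places -/

set_option autoImplicit false

namespace Pool.Agent.Helper8.SPV

section values

variable {k K : Type} [Field k] [Field K] [Algebra k K] {p : Pl k K}

theorem Z1F_mem (h : p.Laws) {f : K} {c : k} (hf : p.Ge 1 (f - algebraMap k K c)) :
    p.Ge 0 f := by
  have h1 : f = (f - algebraMap k K c) + algebraMap k K c := by ring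
  rw [h1]
  exact h.ge_add (h.ge_mono hf (by norm_num)) (h.ge_const c)

theorem Z1F_const (h : p.Laws) (c : k) : p.Ge 1 (algebraMap k K c - algebraMap k K c) := by
  rw [sub_self]
  exact h.ge_zero 1

theorem Z1F_add (h : p.Laws) {f g : K} {c d : k} (hf : p.Ge 1 (f - algebraMap k K c))
    (hg : p.Ge 1 (g - algebraMap k K d)) : p.Ge 1 (f + g - algebraMap k K (c + d)) := by
  have h1 : f + g - algebraMap k K (c + d) =
      (f - algebraMap k K c) + (g - algebraMap k K d) := by rw [map_add]; ring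
  rw [h1]
  exact h.ge_add hf hg

theorem Z1F_neg (h : p.Laws) {f : K} {c : k} (hf : p.Ge 1 (f - algebraMap k K c)) :
    p.Ge 1 (-f - algebraMap k K (-c)) := by
  have h1 : -f - algebraMap k K (-c) = -(f - algebraMap k K c) := by rw [map_neg]; ring
  rw [h1]
  exact h.ge_neg hf

theorem Z1F_mul (h : p.Laws) {f g : K} {c d : k} (hf : p.Ge 1 (f - algebraMap k K c))
    (hg : p.Ge 1 (g - algebraMap k K d)) : p.Ge 1 (f * g - algebraMap k K (c * d)) := by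
  have h1 : f * g - algebraMap k K (c * d) =
      (f - algebraMap k K c) * g + algebraMap k K c * (g - algebraMap k K d) := by
    rw [map_mul]; ring
  rw [h1]
  apply h.ge_add
  · have := h.ge_mul hf (Z1F_mem h hg)
    rwa [add_zero] at this
  · have := h.ge_mul (h.ge_const c) hg
    rwa [zero_add] at this

theorem Z1F_pow (h : p.Laws) {f : K} {c : k} (hf : p.Ge 1 (f - algebraMap k K c)) (n : ℕ) :
    p.Ge 1 (f ^ n - algebraMap k K (c ^ n)) := by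
  induction n with
  | zero =>
    rw [pow_zero, pow_zero, map_one, sub_self]
    exact h.ge_zero 1
  | succ n ih =>
    rw [pow_succ, pow_succ]
    exact Z1F_mul h ih hf

theorem Z1F_sum (h : p.Laws) {ι : Type*} (s : Finset ι) (f : ι → K) (c : ι → k)
    (hf : ∀ i ∈ s, p.Ge 1 (f i - algebraMap k K (c i))) :
    p.Ge 1 (∑ i ∈ s, f i - algebraMap k K (∑ i ∈ s, c i)) := by
  rw [map_sum, ← Finset.sum_sub_distrib]
  exact h.ge_sum s _ hf

theorem Z1F_uniq (h : p.Laws) {f : K} {c d : k} (hf : p.Ge 1 (f - algebraMap k K c))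
    (hg : p.Ge 1 (f - algebraMap k K d)) : c = d := by
  have h1 := h.ge_sub hg hf
  have h2 : f - algebraMap k K d - (f - algebraMap k K c) = algebraMap k K (c - d) := by
    rw [map_sub]; ring
  rw [h2] at h1
  rcases h1 with h1 | h1
  · rw [map_eq_zero] at h1
    exact sub_eq_zero.mp h1
  · rw [h.ord_const] at h1
    omega

theorem Z1F_unit (h : p.Laws) {f : K} {c : k} (hc : c ≠ 0)
    (hf : p.Ge 1 (f - algebraMap k K c)) : f ≠ 0 ∧ f⁻¹ ∈ p.O := by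
  have hf0 : f ≠ 0 := by
    rintro rfl
    rw [zero_sub] at hf
    have h1 := h.ge_neg hf
    rw [neg_neg] at h1
    rcases h1 with h1 | h1
    · exact hc ((map_eq_zero _).mp h1)
    · rw [h.ord_const] at h1
      omega
  have h2 := (h.ge_iff _ _ hf0).mp (Z1F_mem h hf)
  have h3 : p.ord f = 0 := by
    by_contra hcon
    have h4 : p.Ge 1 f := (h.ge_iff _ _ hf0).mpr (by omega)
    have h5 : p.Ge 1 (f - algebraMap k K 0) := by rwa [map_zero, sub_zero]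
    exact hc (Z1F_uniq h hf h5)
  exact ⟨hf0, ((h.U_iff f).mpr ⟨hf0, h3⟩).2.2⟩

theorem Z1F_qf (h : p.Laws) (b : Fin 10 → k) {T : K} {t : k}
    (hT : p.Ge 1 (T - algebraMap k K t)) : p.Ge 1 (Qf b T - algebraMap k K (Qf b t)) := by
  unfold Qf
  apply Z1F_sum h
  intro i _
  exact Z1F_mul h (Z1F_const h _) (Z1F_pow h hT _)

theorem Z1F_qd (h : p.Laws) (b : Fin 10 → k) {T : K} {t : k}
    (hT : p.Ge 1 (T - algebraMap k K t)) : p.Ge 1 (Qd b T - algebraMap k K (Qd b t)) := by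
  unfold Qd
  apply Z1F_sum h
  intro i _
  refine Z1F_mul h (Z1F_mul h ?_ (Z1F_const h _)) (Z1F_pow h hT _)
  rw [map_natCast, sub_self]
  exact h.ge_zero 1

theorem Z1F_W (h : p.Laws) {T W : K} (hW : W ^ 2 = T ^ 3 + 1) (hT : T ∈ p.O) : W ∈ p.O := by
  by_cases hW0 : W = 0
  · rw [hW0]; exact p.O.zero_mem
  rw [h.mem_iff W hW0]
  have h1 : W ^ 2 ∈ p.O := by
    rw [hW]
    exact p.O.add_mem _ _ (p.O.pow_mem hT 3) p.O.one_mem
  rw [h.mem_iff _ (pow_ne_zero 2 hW0), h.ord_pow] at h1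
  push_cast at h1
  omega

end values

/-- The three alternatives at a finite place. -/
theorem Z1F_alt (hG1 : ST_G1) (hID : ST_ID) (hTR : ST_TR)
    (k0 k K : Type) [Field k0] [IsAlgClosed k0] [Field k] [IsAlgClosed k] [CharZero k] [Field K]
    [Algebra k0 k] [Algebra k K] [Algebra k0 K] [IsScalarTower k0 k K] (b : Fin 10 → k)
    (T W X Y : K) (d : Ders k0 b T W) (hBD : BD k0 k b) (hpt : Pt b T W X Y)
    (hT : Transcendental k T) (p : Pl k K) (h : p.Laws) (hTp : T ∈ p.O) (hX : X ∈ p.O) :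
    (Y ≠ 0 ∧ Y⁻¹ ∈ p.O) ∨ (3 * X ^ 2 + 1 ≠ 0 ∧ (3 * X ^ 2 + 1)⁻¹ ∈ p.O) ∨
      ((0 : K) = 0 ∧ 2 * Y * d.δ Y - (3 * X ^ 2 + 1) * d.δ X ≠ 0 ∧
        (2 * Y * d.δ Y - (3 * X ^ 2 + 1) * d.δ X)⁻¹ ∈ p.O) := by
  obtain ⟨-, -, -, -, -, -, hgg⟩ := hID k0 k K b T W X Y d hpt hT (hTR k0 k K b hBD T hT)
  have hWp := Z1F_W h hpt.e1 hTp
  obtain ⟨t1, ht1⟩ := h.res_ge T ((h.mem_iff_ge T).mp hTp)
  obtain ⟨w1, hw1⟩ := h.res_ge W ((h.mem_iff_ge W).mp hWp)
  obtain ⟨x1, hx1⟩ := h.res_ge X ((h.mem_iff_ge X).mp hX)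
  have hYp : Y ∈ p.O := by
    by_cases hY0 : Y = 0
    · rw [hY0]; exact p.O.zero_mem
    rw [h.mem_iff Y hY0]
    have h1 : Y ^ 2 ∈ p.O := by
      rw [hpt.e2]
      exact p.O.add_mem _ _ (p.O.add_mem _ _ (p.O.pow_mem hX 3) hX)
        ((h.mem_iff_ge _).mpr (Z1F_mem h (Z1F_qf h b ht1)))
    rw [h.mem_iff _ (pow_ne_zero 2 hY0), h.ord_pow] at h1
    push_cast at h1
    omega
  obtain ⟨y1, hy1⟩ := h.res_ge Y ((h.mem_iff_ge Y).mp hYp)
  by_cases hy10 : y1 = 0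
  swap
  · exact Or.inl (Z1F_unit h hy10 hy1)
  right
  have h3x : p.Ge 1 (3 * X ^ 2 + 1 - algebraMap k K (3 * x1 ^ 2 + 1)) := by
    apply Z1F_add h
    · apply Z1F_mul h _ (Z1F_pow h hx1 2)
      have := Z1F_const h (3 : k)
      rwa [map_ofNat] at this ⊢
    · rw [map_one, sub_self]
      exact h.ge_zero 1
  by_cases hx10 : 3 * x1 ^ 2 + 1 = 0
  swap
  · exact Or.inl (Z1F_unit h hx10 h3x)
  right
  refine ⟨rfl, ?_⟩
  rw [hgg]
  -- the value of x is in k0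
  have : CharZero k0 := (algebraMap k0 k).charZero
  obtain ⟨c0, hc0⟩ := IsAlgClosed.exists_pow_nat_eq (-(3 : k0)⁻¹) (n := 2) (by norm_num)
  have hc1 : ∃ c : k0, algebraMap k0 k c = x1 := by
    have h1 : (algebraMap k0 k c0) ^ 2 = x1 ^ 2 := by
      have h2 : (3 : k) * (algebraMap k0 k c0) ^ 2 = -1 := by
        rw [← map_pow, hc0, map_neg, map_inv₀, map_ofNat]
        field_simp
      have h3 : (3 : k) ≠ 0 := by norm_num
      apply mul_left_cancel₀ h3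
      rw [h2]
      linear_combination hx10.symm
    rcases sq_eq_sq_iff_eq_or_eq_neg.mp h1 with h2 | h2
    · exact ⟨c0, h2⟩
    · exact ⟨-c0, by rw [map_neg, h2, neg_neg]⟩
  obtain ⟨c, hc⟩ := hc1
  have hQ : Qf b t1 = algebraMap k0 k (-c ^ 3 - c) := by
    have h1 := Z1F_qf h b ht1
    have h2 : Qf b T = Y ^ 2 + -(X ^ 3 + X) := by
      rw [hpt.e2]; ring
    have h3 := Z1F_add h (Z1F_pow h hy1 2) (Z1F_neg h (Z1F_add h (Z1F_pow h hx1 3) hx1))
    rw [← h2] at h3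
    rw [Z1F_uniq h h1 h3, hy10, ← hc, map_sub, map_neg, map_pow]
    ring
  have hw : w1 ^ 2 = t1 ^ 3 + 1 := by
    have h1 := Z1F_pow h hw1 2
    have h2 := Z1F_add h (Z1F_pow h ht1 3) (Z1F_const h (1 : k))
    rw [map_one (algebraMap k K), ← hpt.e1] at h2
    exact Z1F_uniq h h1 h2
  have hne := hG1 k0 k b hBD t1 w1 _ hw hQ
  apply Z1F_unit h hne
  unfold gg
  apply Z1F_mul h (Z1F_mul h _ hw1) (Z1F_qd h b ht1)
  have := Z1F_const h (2 : k)
  rwa [map_ofNat] at this ⊢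

theorem Z1F_two (k K : Type) [Field k] [CharZero k] [Field K] [Algebra k K] (p : Pl k K) :
    (2 : K) ≠ 0 ∧ (3 : K) ≠ 0 ∧ (2 : K)⁻¹ ∈ p.O ∧ (3 : K)⁻¹ ∈ p.O := by
  have : CharZero K := charZero_of_injective_algebraMap (algebraMap k K).injective
  refine ⟨by norm_num, by norm_num, ?_, ?_⟩
  · have := p.mem (2 : k)⁻¹
    rwa [map_inv₀, map_ofNat] at this
  · have := p.mem (3 : k)⁻¹
    rwa [map_inv₀, map_ofNat] at this

theorem st_Z1F (hPL1 : ST_PL1) (hLOC : ST_LOC) (hID : ST_ID) (hCORR : ST_CORR) (hG1 : ST_G1)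
    (hTR : ST_TR) : ST_Z1F := by
  intro k0 k K _ _ _ _ _ _ _ _ _ _ b T W X Y d hBD hFF hpt hT p hTp j
  have h := hPL1 k K hFF p
  obtain ⟨-, hz2, -, hz4, hz5⟩ := hCORR k0 k K b T W d hFF hpt.e1 hT p
  obtain ⟨-, -, -, -, hζ, -, -⟩ := hID k0 k K b T W X Y d hpt hT (hTR k0 k K b hBD T hT)
  obtain ⟨h2, h3, h2i, h3i⟩ := Z1F_two k K p
  have halt := Z1F_alt hG1 hID hTR k0 k K b T W X Y d hBD hpt hT p h hTp
  have hQ : Qf b T ∈ p.O := by
    unfold Qf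
    exact sum_mem fun i _ => p.O.mul_mem _ _ (p.mem _) (p.O.pow_mem hTp _)
  let D : Derivation ℤ K K := T • (d.D j.castSucc).restrictScalars ℤ -
    (d.D j.succ).restrictScalars ℤ
  have hD : ∀ f, D f = T * d.D j.castSucc f - d.D j.succ f := fun f => rfl
  let δ : Derivation ℤ K K := d.δ.restrictScalars ℤ
  have hδ : ∀ f, δ f = d.δ f := fun f => rfl
  have hmul : ∀ {x y : K}, x ∈ p.O → y ∈ p.O → x * y ∈ p.O := fun hx hy => p.O.mul_mem _ _ hx hy
  have hsub : ∀ {x y : K}, x ∈ p.O → y ∈ p.O → x - y ∈ p.O := fun hx hy => sub_mem hx hy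
  refine hLOC K p.O D δ
    (-(T * (d.D j.castSucc p.z / d.δ p.z) - d.D j.succ p.z / d.δ p.z)) (d.δ p.z)⁻¹ 1 (Qf b T) 0
    (zeta d X Y j) X Y h2 h3 h2i h3i ?_ hz2 p.O.one_mem hQ p.O.zero_mem ?_ ?_ ?_ ?_ ?_ ?_
  · exact neg_mem (hsub (hmul hTp (hz5 _).1) (hz5 _).1)
  · intro f hf
    have h4 : D f + -(T * (d.D j.castSucc p.z / d.δ p.z) - d.D j.succ p.z / d.δ p.z) * δ f =
        T * (d.D j.castSucc f - d.D j.castSucc p.z / d.δ p.z * d.δ f) -
          (d.D j.succ f - d.D j.succ p.z / d.δ p.z * d.δ f) := by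
      rw [hD, hδ]; ring
    rw [h4]
    exact hsub (hmul hTp ((hz5 _).2 f hf)) ((hz5 _).2 f hf)
  · intro f hf
    exact hz4 f hf
  · rw [hpt.e2]; ring
  · rw [hD, (hζ j).1]; ring
  · rw [hD, (hζ j).2]; ring
  · intro hX
    rw [hδ, hδ]
    exact halt hX

theorem st_Z2F (hPL1 : ST_PL1) (hLOC : ST_LOC) (hID : ST_ID) (hCORR : ST_CORR) (hG1 : ST_G1)
    (hTR : ST_TR) : ST_Z2F := by
  intro k0 k K _ _ _ _ _ _ _ _ _ _ b T W X Y d hBD hFF hpt hT p hTp
  have h := hPL1 k K hFF p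
  obtain ⟨-, hz2, -, hz4, hz5⟩ := hCORR k0 k K b T W d hFF hpt.e1 hT p
  obtain ⟨-, -, -, -, -, hψ, -⟩ := hID k0 k K b T W X Y d hpt hT (hTR k0 k K b hBD T hT)
  obtain ⟨h2, h3, h2i, h3i⟩ := Z1F_two k K p
  have halt := Z1F_alt hG1 hID hTR k0 k K b T W X Y d hBD hpt hT p h hTp
  have hQ : Qf b T ∈ p.O := by
    unfold Qf
    exact sum_mem fun i _ => p.O.mul_mem _ _ (p.mem _) (p.O.pow_mem hTp _)
  have hmul : ∀ {x y : K}, x ∈ p.O → y ∈ p.O → x * y ∈ p.O := fun hx hy => p.O.mul_mem _ _ hx hy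
  have hsub : ∀ {x y : K}, x ∈ p.O → y ∈ p.O → x - y ∈ p.O := fun hx hy => sub_mem hx hy
  have hg : gg b T W ∈ p.O := by
    unfold gg Qd
    refine hmul (hmul ?_ (Z1F_W h hpt.e1 hTp)) ?_
    · have := p.mem (2 : k)
      rwa [map_ofNat] at this
    · refine sum_mem fun i _ => hmul (hmul ?_ (p.mem _)) (p.O.pow_mem hTp _)
      have := p.mem ((i : ℕ) : k)
      rwa [map_natCast] at this
  let D : Derivation ℤ K K := gg b T W • (d.D 0).restrictScalars ℤ -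
    (d.δ).restrictScalars ℤ
  have hD : ∀ f, D f = gg b T W * d.D 0 f - d.δ f := fun f => rfl
  let δ : Derivation ℤ K K := d.δ.restrictScalars ℤ
  have hδ : ∀ f, δ f = d.δ f := fun f => rfl
  refine hLOC K p.O D δ
    (1 - gg b T W * (d.D 0 p.z / d.δ p.z)) (d.δ p.z)⁻¹ 1 (Qf b T) 0
    (psi d X Y) X Y h2 h3 h2i h3i ?_ hz2 p.O.one_mem hQ p.O.zero_mem ?_ ?_ ?_ ?_ ?_ ?_
  · exact hsub p.O.one_mem (hmul hg (hz5 _).1)
  · intro f hf
    have h4 : D f + (1 - gg b T W * (d.D 0 p.z / d.δ p.z)) * δ f =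
        gg b T W * (d.D 0 f - d.D 0 p.z / d.δ p.z * d.δ f) := by
      rw [hD, hδ]; ring
    rw [h4]
    exact hmul hg ((hz5 _).2 f hf)
  · intro f hf
    exact hz4 f hf
  · rw [hpt.e2]; ring
  · rw [hD, hψ.1]; ring
  · rw [hD, hψ.2]; ring
  · intro hX
    rw [hδ, hδ]
    exact halt hX

end Pool.Agent.Helper8.SPV
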